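import Pool.Agent.Helper58.DH.Goals2
import Pool.Agent.Helper5.DH.F_INT

/-!
# Packet F_ALL (MP_06d934_gt, project DH): the theorem for all the flag manifolds of the families B, C, D.
-/

set_option autoImplicit false

namespace Pool.Agent.Helper12.DH

open Pool.Agent.Helper58.DG Pool.Agent.Helper58.DH Topology

/-- The passage from the parameters of the regime to `Concl`. -/
theorem main2 (h2 : F_PAR2) (h4 : F_RIC) {ε p q m : ℝ} (hp : 0 < p) (hq : 0 < q) (hm : 0 < m)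
    (hpe : 0 < p + ε) (hqe : 0 < q + ε) (hk : 0 < 2 * p + 2 * q + m + 2 * ε)
    (hR : Reg30 (p / (2 * p + 2 * q + m + 2 * ε)) (q / (2 * p + 2 * q + m + 2 * ε))
        (m / (2 * p + 2 * q + m + 2 * ε)) (ε / (2 * p + 2 * q + m + 2 * ε)))
    (hQ : PosPath (q / (2 * p + 2 * q + m + 2 * ε)) (p / (2 * p + 2 * q + m + 2 * ε))
        (m / (2 * p + 2 * q + m + 2 * ε)) (ε / (2 * p + 2 * q + m + 2 * ε))) :
    Concl ε p q m := by
  obtain ⟨k1, k2⟩ := h2 _ _ _ _ hR hQ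
  constructor
  · obtain ⟨w, hw, hw'⟩ := k1
    obtain ⟨g1, g2⟩ := (Pool.Agent.Helper5.DH.sol_iff h4 hp hq hm hpe hqe hk w).1 hw
    exact ⟨w, g1, g2, hw'⟩
  · intro Z hZ hN
    refine k2 Z (fun w ↦ ?_) (fun w hw ↦ ?_)
    · rw [hZ w, Pool.Agent.Helper5.DH.sol_iff h4 hp hq hm hpe hqe hk w]
    · obtain ⟨g1, g2⟩ := (hZ w).1 hw
      exact Pool.Agent.Helper5.DH.jac_ne h4 hp hq hm hpe hqe hk g1 g2 (hN w hw)

/-- The second part for `q ≤ p`. -/
theorem part_le (h1 : F_INT) (h2 : F_PAR2) (h3 : F_POS2) (h4 : F_RIC) (p q r : ℕ) (hp : 1 ≤ p)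
    (hq : 1 ≤ q) (hr : 1 ≤ r) (hqp : q ≤ p) : Concl 1 p q (2 * r : ℕ) := by
  by_cases hc : ((max p q : ℤ) - 1) * r * ((min p q : ℤ) - r ^ 2) ≤ ((min p q : ℤ) + r) ^ 4
  · exact h1.2 p q r hp hq hr hc
  · have hmax : max (p : ℤ) q = p := max_eq_left (by exact_mod_cast hqp)
    have hmin : min (p : ℤ) q = q := min_eq_right (by exact_mod_cast hqp)
    rw [hmax, hmin, not_le] at hc
    have hp' : (1 : ℝ) ≤ p := by exact_mod_cast hp
    have hq' : (1 : ℝ) ≤ q := by exact_mod_cast hq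
    have hr' : (1 : ℝ) ≤ r := by exact_mod_cast hr
    have hr2 : (1 : ℝ) ≤ (2 * r : ℕ) := by
      push_cast
      linarith
    obtain ⟨g1, g2⟩ := h3 p q r hq hqp hr hc
    exact main2 h2 h4 (by linarith) (by linarith) (by linarith) (by linarith) (by linarith)
      (by linarith) g1 g2

theorem f_all (h1 : F_INT) (h2 : F_PAR2) (h3 : F_POS2) (h4 : F_RIC) (h5 : F_SYM) : F_ALL := by
  refine ⟨h1.1, fun p q r hp hq hr ↦ ?_⟩
  rcases le_total q p with h | h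
  · exact part_le h1 h2 h3 h4 p q r hp hq hr h
  · exact h5 _ _ _ _ (part_le h1 h2 h3 h4 q p r hq hp hr h)

end Pool.Agent.Helper12.DH
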