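import Pool.Agent.Helper58.DH.Goals

set_option autoImplicit false

namespace Pool.Agent.Helper12.DH

open Pool.Agent.Helper58.DH

lemma i012 : ∀ i j k : Fin 6, (({i, j, k} : Multiset (Fin 6)) = {0, 1, 2}) ↔
    ((i = 0 ∧ j = 1 ∧ k = 2) ∨ (i = 0 ∧ j = 2 ∧ k = 1) ∨ (i = 1 ∧ j = 0 ∧ k = 2) ∨
      (i = 1 ∧ j = 2 ∧ k = 0) ∨ (i = 2 ∧ j = 0 ∧ k = 1) ∨ (i = 2 ∧ j = 1 ∧ k = 0)) := by
  decide

lemma i013 : ∀ i j k : Fin 6, (({i, j, k} : Multiset (Fin 6)) = {0, 1, 3}) ↔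
    ((i = 0 ∧ j = 1 ∧ k = 3) ∨ (i = 0 ∧ j = 3 ∧ k = 1) ∨ (i = 1 ∧ j = 0 ∧ k = 3) ∨
      (i = 1 ∧ j = 3 ∧ k = 0) ∨ (i = 3 ∧ j = 0 ∧ k = 1) ∨ (i = 3 ∧ j = 1 ∧ k = 0)) := by
  decide

lemma i045 : ∀ i j k : Fin 6, (({i, j, k} : Multiset (Fin 6)) = {0, 4, 5}) ↔
    ((i = 0 ∧ j = 4 ∧ k = 5) ∨ (i = 0 ∧ j = 5 ∧ k = 4) ∨ (i = 4 ∧ j = 0 ∧ k = 5) ∨
      (i = 4 ∧ j = 5 ∧ k = 0) ∨ (i = 5 ∧ j = 0 ∧ k = 4) ∨ (i = 5 ∧ j = 4 ∧ k = 0)) := by
  decide

lemma i145 : ∀ i j k : Fin 6, (({i, j, k} : Multiset (Fin 6)) = {1, 4, 5}) ↔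
    ((i = 1 ∧ j = 4 ∧ k = 5) ∨ (i = 1 ∧ j = 5 ∧ k = 4) ∨ (i = 4 ∧ j = 1 ∧ k = 5) ∨
      (i = 4 ∧ j = 5 ∧ k = 1) ∨ (i = 5 ∧ j = 1 ∧ k = 4) ∨ (i = 5 ∧ j = 4 ∧ k = 1)) := by
  decide

lemma i244 : ∀ i j k : Fin 6, (({i, j, k} : Multiset (Fin 6)) = {2, 4, 4}) ↔
    ((i = 2 ∧ j = 4 ∧ k = 4) ∨ (i = 4 ∧ j = 2 ∧ k = 4) ∨ (i = 4 ∧ j = 4 ∧ k = 2)) := by
  decide

lemma i355 : ∀ i j k : Fin 6, (({i, j, k} : Multiset (Fin 6)) = {3, 5, 5}) ↔
    ((i = 3 ∧ j = 5 ∧ k = 5) ∨ (i = 5 ∧ j = 3 ∧ k = 5) ∨ (i = 5 ∧ j = 5 ∧ k = 3)) := by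
  decide

/-- The row sums of `AC` against a function of the two indices. -/
lemma rowsum (P Q M E : ℝ) (g : Fin 6 → Fin 6 → ℝ) :
    (∑ j, ∑ k, AC P Q M E 0 j k * g j k =
      P * Q * (P + E) * (g 1 2 + g 2 1) + P * Q * (Q + E) * (g 1 3 + g 3 1) +
        P * Q * M * (g 4 5 + g 5 4)) ∧
    (∑ j, ∑ k, AC P Q M E 1 j k * g j k =
      P * Q * (P + E) * (g 0 2 + g 2 0) + P * Q * (Q + E) * (g 0 3 + g 3 0) +
        P * Q * M * (g 4 5 + g 5 4)) ∧
    (∑ j, ∑ k, AC P Q M E 2 j k * g j k =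
      P * Q * (P + E) * (g 0 1 + g 1 0) + P * (P + E) * M * g 4 4) ∧
    (∑ j, ∑ k, AC P Q M E 3 j k * g j k =
      P * Q * (Q + E) * (g 0 1 + g 1 0) + Q * (Q + E) * M * g 5 5) ∧
    (∑ j, ∑ k, AC P Q M E 4 j k * g j k =
      P * Q * M * (g 0 5 + g 5 0) + P * Q * M * (g 1 5 + g 5 1) +
        P * (P + E) * M * (g 2 4 + g 4 2)) ∧
    (∑ j, ∑ k, AC P Q M E 5 j k * g j k =
      P * Q * M * (g 0 4 + g 4 0) + P * Q * M * (g 1 4 + g 4 1) +
        Q * (Q + E) * M * (g 3 5 + g 5 3)) := by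
  refine ⟨?_, ?_, ?_, ?_, ?_, ?_⟩ <;>
  · simp only [AC, ind, i012, i013, i045, i145, i244, i355, Fin.sum_univ_succ, Fin.sum_univ_zero]
    simp [Fin.ext_iff]
    try ring

lemma ind_comm (p q r i j k : Fin 6) : ind p q r i j k = ind p q r j i k := by
  unfold ind
  have h : ({i, j, k} : Multiset (Fin 6)) = {j, i, k} := Multiset.cons_swap i j {k}
  rw [h]

lemma ind_comm2 (p q r i j k : Fin 6) : ind p q r i j k = ind p q r i k j := by
  unfold ind
  have h : ({i, j, k} : Multiset (Fin 6)) = {i, k, j} := by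
    show i ::ₘ (j ::ₘ {k}) = i ::ₘ (k ::ₘ {j})
    congr 1
    exact Multiset.cons_swap j k 0
  rw [h]

lemma ind_nonneg (p q r i j k : Fin 6) : 0 ≤ ind p q r i j k := by
  unfold ind
  split_ifs <;> norm_num

lemma cs_comm (x y z : ℝ) : cs x y z = cs y x z := by
  unfold cs
  rw [add_comm (x ^ 2), mul_right_comm]

lemma pc_iff (P Q M E B : ℝ) (w : Fin 6 → ℝ) (hw : ∀ i, 0 < w i) :
    PC P Q M E B w = 0 ↔ EqC P Q M E B w := by
  have h0 := hw 0
  have h1 := hw 1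
  have h2 := hw 2
  have h3 := hw 3
  have h4 := hw 4
  have h5 := hw 5
  have e0 : PC P Q M E B w 0 = (2 * w 1 * w 2 * w 3 * w 4 * w 5) *
      (w 0 - (1 - (P + E) * cs (w 1) (w 2) (w 0) - (Q + E) * cs (w 1) (w 3) (w 0) -
      M * cs (w 4) (w 5) (w 0))) := by
    simp only [PC, cs, Matrix.cons_val_zero]
    field_simp
    ring
  have e1 : PC P Q M E B w 1 = (2 * w 0 * w 2 * w 3 * w 4 * w 5) *
      (w 1 - (1 - (P + E) * cs (w 0) (w 2) (w 1) - (Q + E) * cs (w 0) (w 3) (w 1) -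
      M * cs (w 4) (w 5) (w 1))) := by
    simp only [PC, cs, Matrix.cons_val_one, Matrix.cons_val_zero]
    field_simp
    ring
  have e2 : PC P Q M E B w 2 = (2 * w 0 * w 1 * w 4 ^ 2) *
      (w 2 - (B - 2 * Q * cs (w 0) (w 1) (w 2) - M * cs (w 4) (w 4) (w 2))) := by
    simp only [PC, cs, Matrix.cons_val]
    field_simp
    ring
  have e3 : PC P Q M E B w 3 = (2 * w 0 * w 1 * w 5 ^ 2) *
      (w 3 - (B - 2 * P * cs (w 0) (w 1) (w 3) - M * cs (w 5) (w 5) (w 3))) := by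
    simp only [PC, cs, Matrix.cons_val]
    field_simp
    ring
  have e4 : PC P Q M E B w 4 = (2 * w 4 * w 5 * w 0 * w 1) *
      (w 4 - (1 - (P + E) * cs (w 2) (w 4) (w 4) -
      Q * (cs (w 5) (w 1) (w 4) + cs (w 5) (w 0) (w 4)))) := by
    simp only [PC, cs, Matrix.cons_val]
    field_simp
    ring
  have e5 : PC P Q M E B w 5 = (2 * w 4 * w 5 * w 0 * w 1) *
      (w 5 - (1 - (Q + E) * cs (w 3) (w 5) (w 5) -
      P * (cs (w 4) (w 1) (w 5) + cs (w 4) (w 0) (w 5)))) := by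
    simp only [PC, cs, Matrix.cons_val]
    field_simp
    ring
  have key : ∀ c a b : ℝ, 0 < c → (c * (a - b) = 0 ↔ a = b) := by
    intro c a b hc
    rw [mul_eq_zero, sub_eq_zero]
    constructor
    · rintro (h | h)
      · exact absurd h hc.ne'
      · exact h
    · exact fun h => Or.inr h
  constructor
  · intro h
    have g : ∀ i, PC P Q M E B w i = 0 := fun i => by rw [h]; rfl
    refine ⟨(key _ _ _ ?_).1 (e0 ▸ g 0), (key _ _ _ ?_).1 (e1 ▸ g 1), (key _ _ _ ?_).1 (e2 ▸ g 2),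
      (key _ _ _ ?_).1 (e3 ▸ g 3), (key _ _ _ ?_).1 (e4 ▸ g 4), (key _ _ _ ?_).1 (e5 ▸ g 5)⟩ <;>
      positivity
  · rintro ⟨g0, g1, g2, g3, g4, g5⟩
    funext i
    fin_cases i
    · exact e0.trans ((key _ _ _ (by positivity)).2 g0)
    · exact e1.trans ((key _ _ _ (by positivity)).2 g1)
    · exact e2.trans ((key _ _ _ (by positivity)).2 g2)
    · exact e3.trans ((key _ _ _ (by positivity)).2 g3)
    · exact e4.trans ((key _ _ _ (by positivity)).2 g4)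
    · exact e5.trans ((key _ _ _ (by positivity)).2 g5)

theorem h_eqn : H_EQN := by
  refine ⟨fun P Q M E B w hw => pc_iff P Q M E B w hw, ?_⟩
  intro P Q M E hP hQ hM hPE hQE
  refine ⟨⟨?_, ?_, ?_⟩, ?_, ?_, ?_⟩
  · intro i j k
    unfold AC
    have n1 := ind_nonneg 0 1 2 i j k
    have n2 := ind_nonneg 0 1 3 i j k
    have n3 := ind_nonneg 0 4 5 i j k
    have n4 := ind_nonneg 1 4 5 i j k
    have n5 := ind_nonneg 2 4 4 i j k
    have n6 := ind_nonneg 3 5 5 i j k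
    positivity
  · intro i j k
    unfold AC
    rw [ind_comm 0 1 2 i, ind_comm 0 1 3 i, ind_comm 0 4 5 i, ind_comm 1 4 5 i, ind_comm 2 4 4 i,
      ind_comm 3 5 5 i]
  · intro i j k
    unfold AC
    rw [ind_comm2 0 1 2 i, ind_comm2 0 1 3 i, ind_comm2 0 4 5 i, ind_comm2 1 4 5 i,
      ind_comm2 2 4 4 i, ind_comm2 3 5 5 i]
  · intro e
    fin_cases e
    · show 0 < 2 * P * Q
      positivity
    · show 0 < 2 * P * Q
      positivity
    · show 0 < P * (P + E)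
      positivity
    · show 0 < Q * (Q + E)
      positivity
    · show 0 < 2 * P * M
      positivity
    · show 0 < 2 * Q * M
      positivity
  · intro hs
    obtain ⟨r0, r1, r2, r3, r4, r5⟩ := rowsum P Q M E (fun _ _ => 1)
    simp only [mul_one] at r0 r1 r2 r3 r4 r5
    have hM' : M = 1 - 2 * P - 2 * Q - 2 * E := by linarith
    have p1 : 0 < 2 * P * Q * (P + Q) := by positivity
    have p2 : 0 < 2 * P * (P + E) * (P + E) := by positivity
    have p3 : 0 < 2 * Q * (Q + E) * (Q + E) := by positivity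
    have p4 : 0 < 2 * P * M * (P + E + M) := by positivity
    have p5 : 0 < 2 * Q * M * (Q + E + M) := by positivity
    refine ⟨min (2 * P * Q * (P + Q)) (min (2 * P * (P + E) * (P + E))
      (min (2 * Q * (Q + E) * (Q + E)) (min (2 * P * M * (P + E + M))
        (2 * Q * M * (Q + E + M))))), ?_, ?_⟩
    · exact lt_min p1 (lt_min p2 (lt_min p3 (lt_min p4 p5)))
    · have m1 := min_le_left (2 * P * Q * (P + Q)) (min (2 * P * (P + E) * (P + E))
        (min (2 * Q * (Q + E) * (Q + E)) (min (2 * P * M * (P + E + M))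
          (2 * Q * M * (Q + E + M)))))
      have m1' := min_le_right (2 * P * Q * (P + Q)) (min (2 * P * (P + E) * (P + E))
        (min (2 * Q * (Q + E) * (Q + E)) (min (2 * P * M * (P + E + M))
          (2 * Q * M * (Q + E + M)))))
      have m2 := min_le_left (2 * P * (P + E) * (P + E))
        (min (2 * Q * (Q + E) * (Q + E)) (min (2 * P * M * (P + E + M))
          (2 * Q * M * (Q + E + M))))
      have m2' := min_le_right (2 * P * (P + E) * (P + E))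
        (min (2 * Q * (Q + E) * (Q + E)) (min (2 * P * M * (P + E + M))
          (2 * Q * M * (Q + E + M))))
      have m3 := min_le_left (2 * Q * (Q + E) * (Q + E)) (min (2 * P * M * (P + E + M))
          (2 * Q * M * (Q + E + M)))
      have m3' := min_le_right (2 * Q * (Q + E) * (Q + E)) (min (2 * P * M * (P + E + M))
          (2 * Q * M * (Q + E + M)))
      have m4 := min_le_left (2 * P * M * (P + E + M)) (2 * Q * M * (Q + E + M))
      have m4' := min_le_right (2 * P * M * (P + E + M)) (2 * Q * M * (Q + E + M))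
      intro e
      fin_cases e
      · show _ ≤ 2 * P * Q - ∑ j, ∑ k, AC P Q M E 0 j k
        rw [r0]
        refine m1.trans (le_of_eq ?_)
        rw [hM']
        ring
      · show _ ≤ 2 * P * Q - ∑ j, ∑ k, AC P Q M E 1 j k
        rw [r1]
        refine m1.trans (le_of_eq ?_)
        rw [hM']
        ring
      · show _ ≤ P * (P + E) - ∑ j, ∑ k, AC P Q M E 2 j k
        rw [r2]
        refine (m1'.trans m2).trans (le_of_eq ?_)
        rw [hM']
        ring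
      · show _ ≤ Q * (Q + E) - ∑ j, ∑ k, AC P Q M E 3 j k
        rw [r3]
        refine ((m1'.trans m2').trans m3).trans (le_of_eq ?_)
        rw [hM']
        ring
      · show _ ≤ 2 * P * M - ∑ j, ∑ k, AC P Q M E 4 j k
        rw [r4]
        refine (((m1'.trans m2').trans m3').trans m4).trans (le_of_eq ?_)
        rw [hM']
        ring
      · show _ ≤ 2 * Q * M - ∑ j, ∑ k, AC P Q M E 5 j k
        rw [r5]
        refine (((m1'.trans m2').trans m3').trans m4').trans (le_of_eq ?_)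
        rw [hM']
        ring
  · rintro B w ⟨hw, g0, g1, g2, g3, g4, g5⟩
    refine ⟨hw, ?_⟩
    intro e
    fin_cases e
    · show 2 * P * Q * w 0 = 2 * P * Q * 1 - ∑ j, ∑ k, AC P Q M E 0 j k * cs (w j) (w k) (w 0)
      rw [(rowsum P Q M E (fun j k => cs (w j) (w k) (w 0))).1]
      rw [cs_comm (w 2) (w 1), cs_comm (w 3) (w 1), cs_comm (w 5) (w 4)]
      linear_combination 2 * P * Q * g0
    · show 2 * P * Q * w 1 = 2 * P * Q * 1 - ∑ j, ∑ k, AC P Q M E 1 j k * cs (w j) (w k) (w 1)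
      rw [(rowsum P Q M E (fun j k => cs (w j) (w k) (w 1))).2.1]
      rw [cs_comm (w 2) (w 0), cs_comm (w 3) (w 0), cs_comm (w 5) (w 4)]
      linear_combination 2 * P * Q * g1
    · show P * (P + E) * w 2 = P * (P + E) * B -
        ∑ j, ∑ k, AC P Q M E 2 j k * cs (w j) (w k) (w 2)
      rw [(rowsum P Q M E (fun j k => cs (w j) (w k) (w 2))).2.2.1]
      rw [cs_comm (w 1) (w 0)]
      linear_combination P * (P + E) * g2
    · show Q * (Q + E) * w 3 = Q * (Q + E) * B -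
        ∑ j, ∑ k, AC P Q M E 3 j k * cs (w j) (w k) (w 3)
      rw [(rowsum P Q M E (fun j k => cs (w j) (w k) (w 3))).2.2.2.1]
      rw [cs_comm (w 1) (w 0)]
      linear_combination Q * (Q + E) * g3
    · show 2 * P * M * w 4 = 2 * P * M * 1 - ∑ j, ∑ k, AC P Q M E 4 j k * cs (w j) (w k) (w 4)
      rw [(rowsum P Q M E (fun j k => cs (w j) (w k) (w 4))).2.2.2.2.1]
      rw [cs_comm (w 0) (w 5), cs_comm (w 1) (w 5), cs_comm (w 4) (w 2)]
      linear_combination 2 * P * M * g4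
    · show 2 * Q * M * w 5 = 2 * Q * M * 1 - ∑ j, ∑ k, AC P Q M E 5 j k * cs (w j) (w k) (w 5)
      rw [(rowsum P Q M E (fun j k => cs (w j) (w k) (w 5))).2.2.2.2.2]
      rw [cs_comm (w 0) (w 4), cs_comm (w 1) (w 4), cs_comm (w 5) (w 3)]
      linear_combination 2 * Q * M * g5

end Pool.Agent.Helper12.DH
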